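import Pool.Agent.SPV.StmtsL

/-!
# Squad SPV, row LGB
-/

set_option autoImplicit false

namespace Pool.Agent.SPV.H68

open Finset Pool.Agent.SPV

/-- the size of `q` -/
theorem lgb_size (κ : ℝ) (hκ : 0 < κ) : ∃ N : ℕ, ∀ q : ℕ, N ≤ q →
    2 ≤ Real.log q ∧ 4 * Real.log q ^ 2 < (q : ℝ) ^ κ ∧
      16 * Real.log q ^ 2 ≤ (q : ℝ) ^ (1 / 2 : ℝ) := by
  have h1 : ∀ s : ℝ, 0 < s → ∀ᶠ x : ℝ in Filter.atTop, 17 * Real.log x ^ 2 ≤ x ^ s := by
    intro s hs
    have h2 := (isLittleO_log_rpow_rpow_atTop 2 hs).def (show (0 : ℝ) < 1 / 17 by norm_num)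
    filter_upwards [h2, Filter.eventually_ge_atTop (1 : ℝ)] with x hx h1x
    have h3 : 0 ≤ Real.log x := Real.log_nonneg h1x
    rw [Real.norm_of_nonneg (by positivity), Real.norm_of_nonneg (by positivity),
      Real.rpow_two] at hx
    linarith
  have h3 : ∀ᶠ x : ℝ in Filter.atTop, 2 ≤ Real.log x :=
    Real.tendsto_log_atTop.eventually_ge_atTop 2
  have h4 := (h1 κ hκ).and ((h1 (1 / 2) (by norm_num)).and h3)
  have h5 := tendsto_natCast_atTop_atTop (R := ℝ) |>.eventually h4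
  obtain ⟨N, hN⟩ := Filter.eventually_atTop.mp h5
  refine ⟨N, fun q hq => ?_⟩
  obtain ⟨h6, h7, h8⟩ := hN q hq
  have h9 : 0 < Real.log q ^ 2 := by positivity
  refine ⟨h8, ?_, ?_⟩ <;> linarith

/-- the lower bound of the quotient of the binomial coefficients -/
theorem lgb_prod (q r k : ℕ) (δ : ℝ) (hk : k ≤ r) (hr : r ≤ q) (hkq : k < q) (hr0 : 0 < r)
    (hδ : (k : ℝ) * (1 - r / q) ≤ r / q * δ * (q - k)) (hδ0 : 0 ≤ δ) (hδ1 : k * δ ≤ 1 / 2) :
    ((r : ℝ) / q) ^ k * q.choose k ≤ 2 * r.choose k := by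
  have hq0 : (0 : ℝ) < q := by
    have : 0 < q := by omega
    exact_mod_cast this
  have hr0' : (0 : ℝ) < r := by exact_mod_cast hr0
  set ρ : ℝ := (r : ℝ) / q with hρ
  have hρ0 : 0 < ρ := by positivity
  have hρr : ρ * q = r := by rw [hρ]; field_simp
  have hρ1 : ρ ≤ 1 := by
    rw [hρ, div_le_one hq0]
    exact_mod_cast hr
  rcases Nat.eq_zero_or_pos k with hk0 | hk0
  · subst hk0
    simp
  have hk1 : (1 : ℝ) ≤ k := by exact_mod_cast hk0
  have hδ2 : δ ≤ 1 / 2 := by nlinarith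
  have h1 : (ρ * (1 - δ)) ^ k * (q.descFactorial k : ℝ) ≤ r.descFactorial k := by
    rw [Nat.descFactorial_eq_prod_range, Nat.descFactorial_eq_prod_range]
    push_cast
    have h2 : (ρ * (1 - δ)) ^ k = ∏ _i ∈ range k, (ρ * (1 - δ)) := by
      rw [prod_const, card_range]
    rw [h2, ← prod_mul_distrib]
    apply prod_le_prod
    · intro i hi
      have : (0 : ℝ) ≤ 1 - δ := by linarith
      positivity
    · intro i hi
      have hik : i < k := mem_range.mp hi
      rw [Nat.cast_sub (by omega), Nat.cast_sub (by omega)]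
      have hik' : (i : ℝ) ≤ k := by exact_mod_cast hik.le
      have h3 : (i : ℝ) * (1 - ρ) ≤ k * (1 - ρ) := by
        apply mul_le_mul_of_nonneg_right hik'
        linarith
      have h4 : ρ * δ * (q - k) ≤ ρ * δ * (q - i) := by
        apply mul_le_mul_of_nonneg_left _ (by positivity)
        linarith
      have h5 : ρ * (1 - δ) * ((q : ℝ) - i) = r - ρ * i - ρ * δ * (q - i) := by
        rw [← hρr]
        ring
      rw [h5]
      linarith
  have h2 : (1 : ℝ) / 2 ≤ (1 - δ) ^ k := by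
    have h3 := one_add_mul_le_pow (a := -δ) (by linarith) k
    have h4 : (1 : ℝ) + -δ = 1 - δ := by ring
    rw [h4] at h3
    linarith
  have h3 : ρ ^ k * (q.descFactorial k : ℝ) ≤ 2 * r.descFactorial k := by
    calc ρ ^ k * (q.descFactorial k : ℝ) = 2 * ((1 / 2) * (ρ ^ k * (q.descFactorial k : ℝ))) := by
          ring
      _ ≤ 2 * ((1 - δ) ^ k * (ρ ^ k * (q.descFactorial k : ℝ))) := by gcongr
      _ = 2 * ((ρ * (1 - δ)) ^ k * (q.descFactorial k : ℝ)) := by rw [mul_pow]; ring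
      _ ≤ _ := by gcongr
  rw [Nat.descFactorial_eq_factorial_mul_choose, Nat.descFactorial_eq_factorial_mul_choose] at h3
  push_cast at h3
  have h4 : (0 : ℝ) < k.factorial := by exact_mod_cast k.factorial_pos
  have h5 : (k.factorial : ℝ) * (ρ ^ k * (q.choose k : ℝ)) ≤
      k.factorial * (2 * r.choose k) := by linarith
  exact le_of_mul_le_mul_left h5 h4

/-- the error term -/
theorem lgb_key (q r k l ρ s : ℝ) (hk : 2 ≤ k) (hl : 2 ≤ l) (hk16 : k * 16 ≤ q)
    (hk8 : k * (8 * l) ≤ q) (hρr : ρ * q = r) (hρ0 : 0 < ρ) (hη0 : 0 ≤ 1 - ρ) (hη : 1 - ρ ≤ l / k)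
    (hs : 16 * l ^ 2 ≤ s) (hsr : s ≤ r) : k ≤ r ∧ k * k * (1 - ρ) * 4 ≤ r := by
  have hk0 : 0 < k := by linarith
  have hq0 : 0 < q := by linarith
  rcases le_or_gt (1 / 2) ρ with h | h
  · have h1 : q / 2 ≤ r := by
      rw [← hρr]
      have := mul_le_mul_of_nonneg_right h hq0.le
      linarith
    constructor
    · linarith
    · have h2 : k * (1 - ρ) ≤ l := by
        have := mul_le_mul_of_nonneg_left hη hk0.le
        rwa [mul_div_cancel₀ _ hk0.ne'] at this
      have h3 : k * (k * (1 - ρ)) ≤ k * l := mul_le_mul_of_nonneg_left h2 hk0.le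
      linarith
  · have h1 : k < 2 * l := by
      have h2 : (1 : ℝ) / 2 < l / k := by linarith
      rw [lt_div_iff₀ hk0] at h2
      linarith
    have h3 : 16 * l ^ 2 ≤ r := hs.trans hsr
    have h5 : l ≤ l ^ 2 := by nlinarith
    constructor
    · linarith
    · have h4 : k * k ≤ (2 * l) * (2 * l) := mul_le_mul h1.le h1.le hk0.le (by linarith)
      have h6 : k * k * (1 - ρ) ≤ k * k * 1 := by
        apply mul_le_mul_of_nonneg_left _ (by positivity)
        linarith
      linarith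

/-- the final contradiction -/
theorem lgb_fin (q r k l ρ L P T X Y K : ℝ) (hq : 0 < q) (hk : 0 < k) (hl : 0 < l)
    (hρr : ρ * q = r) (hη0 : 0 ≤ 1 - ρ) (hη : 1 - ρ ≤ l / k) (hL : L ≤ k * l)
    (hP : T / 2 ≤ P - L) (hT : 0 < T) (hX : 0 < X) (hY : 0 ≤ Y) (hK : 0 ≤ K)
    (hKX : K * X ≤ 2 * Y) (hM : P * (q * Y) ≤ L * (q * Y + (q - r) * X)) :
    T * K ≤ 4 * l ^ 2 := by
  have h1 : (P - L) * (q * Y) ≤ L * ((q - r) * X) := by linarith
  have h2 : T / 2 * (q * Y) ≤ L * ((q - r) * X) := by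
    refine le_trans ?_ h1
    apply mul_le_mul_of_nonneg_right hP (by positivity)
  have h3 : T / 2 * (q * (K * X / 2)) ≤ L * ((q - r) * X) := by
    refine le_trans ?_ h2
    apply mul_le_mul_of_nonneg_left _ (by positivity)
    apply mul_le_mul_of_nonneg_left _ hq.le
    linarith
  have h4 : q - r = q * (1 - ρ) := by rw [← hρr]; ring
  rw [h4] at h3
  have h5 : (q * X) * (T * K) ≤ (q * X) * (4 * (L * (1 - ρ))) := by linarith
  have h6 : T * K ≤ 4 * (L * (1 - ρ)) := le_of_mul_le_mul_left h5 (by positivity)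
  have h7 : L * (1 - ρ) ≤ l ^ 2 := by
    calc L * (1 - ρ) ≤ (k * l) * (1 - ρ) := mul_le_mul_of_nonneg_right hL hη0
      _ ≤ (k * l) * (l / k) := mul_le_mul_of_nonneg_left hη (by positivity)
      _ = l ^ 2 := by field_simp
  linarith

theorem lgb (hmin : MinStmt) : LgbStmt := by
  intro θ κ hκ hκθ hθ
  obtain ⟨N, hN⟩ := lgb_size κ hκ
  refine ⟨max N 2, ?_⟩
  intro q p hq hNq hp hqp hexp A hA hAne hAc β hβ
  obtain ⟨hl, hlκ, hlh⟩ := hN q ((le_max_left _ _).trans hNq)
  have hq2 : 2 ≤ q := (le_max_right _ _).trans hNq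
  have hq2' : (2 : ℝ) ≤ q := by exact_mod_cast hq2
  have hq0 : (0 : ℝ) < q := by linarith
  have hq1 : (1 : ℝ) < q := by linarith
  set k := A.card with hk
  set c := θ - κ with hc
  have hc0 : 0 < c := by rw [hc]; linarith
  have hc1 : c < 1 := by rw [hc]; linarith
  have hk1 : 1 ≤ k := by rw [hk]; exact card_pos.mpr hAne
  have hk1' : (1 : ℝ) ≤ k := by exact_mod_cast hk1
  by_contra hcon
  rw [not_le] at hcon
  set l := Real.log q with hldef
  -- the number `r`
  set B : ℝ := (q : ℝ) ^ (1 - c / k) with hB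
  have hck : 0 < c / k := by positivity
  have hBq : B < q := by
    calc B < (q : ℝ) ^ (1 : ℝ) := Real.rpow_lt_rpow_of_exponent_lt hq1 (by linarith)
      _ = q := Real.rpow_one _
  set r := min (nr p q A β) q with hr
  have hrq : r ≤ q := min_le_right _ _
  have hrB : B < r := by
    rw [hr]
    push_cast
    exact lt_min hcon hBq
  have hB0 : 0 < B := by positivity
  have hr0' : (0 : ℝ) < r := hB0.trans hrB
  have hr0 : 0 < r := by exact_mod_cast hr0'
  have hrq' : (r : ℝ) ≤ q := by exact_mod_cast hrq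
  have hM := hmin q hq A hA hAne {p} r hrq (by
    intro p' hp'
    rw [mem_singleton] at hp'
    subst hp'
    exact ⟨hp, hqp, β, hβ, min_le_left _ _⟩)
  rw [sum_singleton, ← hk] at hM
  set L := Real.log (k.factorial) with hL
  set ρ : ℝ := (r : ℝ) / q with hρ
  have hρ0 : 0 < ρ := by positivity
  have hρr : ρ * q = r := by rw [hρ]; field_simp
  have hρ1 : ρ ≤ 1 := by
    rw [hρ, div_le_one hq0]
    exact hrq'
  -- sizes
  have hqκ : (q : ℝ) ^ c * (q : ℝ) ^ κ = (q : ℝ) ^ θ := by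
    rw [← Real.rpow_add hq0, hc, sub_add_cancel]
  have hqθ : (q : ℝ) ^ θ ≤ q := by
    calc (q : ℝ) ^ θ ≤ (q : ℝ) ^ (1 : ℝ) := Real.rpow_le_rpow_of_exponent_le hq1.le hθ
      _ = q := Real.rpow_one _
  have hqc0 : 0 < (q : ℝ) ^ c := by positivity
  have h8l : 8 * l ≤ (q : ℝ) ^ κ := by
    have : 2 * l ≤ l ^ 2 := by rw [sq]; exact mul_le_mul_of_nonneg_right hl (by linarith)
    linarith
  have h8 : (q : ℝ) ^ c * (8 * l) ≤ (q : ℝ) ^ θ := by
    rw [← hqκ]
    gcongr
  have hk8 : (k : ℝ) * (8 * l) ≤ (q : ℝ) ^ θ := by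
    refine le_trans ?_ h8
    have : (0 : ℝ) ≤ 8 * l := by linarith
    gcongr
  have hk16 : (k : ℝ) * 16 ≤ q := by
    refine le_trans ?_ (hk8.trans hqθ)
    apply mul_le_mul_of_nonneg_left _ (by linarith)
    linarith
  have hkq : k < q := by
    have : (k : ℝ) < q := by linarith
    exact_mod_cast this
  have hlogk : Real.log k ≤ l := by
    apply Real.log_le_log (by linarith)
    exact_mod_cast hkq.le
  have hL1 : L ≤ k * Real.log k := by
    rw [hL, ← Real.log_pow]
    apply Real.log_le_log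
    · exact_mod_cast k.factorial_pos
    · exact_mod_cast Nat.factorial_le_pow k
  have hL2 : L ≤ k * l := hL1.trans (by gcongr)
  have hL0 : 0 ≤ L := by
    rw [hL]
    apply Real.log_nonneg
    exact_mod_cast k.factorial_pos
  have hlp : (q : ℝ) ^ θ ≤ Real.log p := by
    rw [Real.le_log_iff_exp_le]
    · exact hexp
    · exact_mod_cast hp.pos
  have hlpL : (q : ℝ) ^ θ / 2 ≤ Real.log p - L := by linarith
  -- the density
  set τ : ℝ := (q : ℝ) ^ (-(c / k)) with hτ
  have hτρ : τ < ρ := by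
    rw [hρ, lt_div_iff₀ hq0, hτ]
    calc (q : ℝ) ^ (-(c / k)) * q = (q : ℝ) ^ (-(c / k)) * (q : ℝ) ^ (1 : ℝ) := by
          rw [Real.rpow_one]
      _ = B := by rw [← Real.rpow_add hq0, hB]; congr 1; ring
      _ < r := hrB
  have hτ0 : 0 < τ := by positivity
  have hτk : τ ^ k = (q : ℝ) ^ (-c) := by
    rw [hτ, ← Real.rpow_natCast, ← Real.rpow_mul hq0.le]
    congr 1
    field_simp
  have hη : 1 - ρ ≤ l / k := by
    have h1 : 1 - c * l / k ≤ τ := by
      have h2 : τ = Real.exp (-(c * l / k)) := by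
        rw [hτ, Real.rpow_def_of_pos hq0]
        congr 1
        ring
      rw [h2]
      have := Real.add_one_le_exp (-(c * l / k))
      linarith
    have h2 : c * l / k ≤ l / k := by
      apply div_le_div_of_nonneg_right _ (by linarith)
      have := mul_le_mul_of_nonneg_right hc1.le (by linarith : (0 : ℝ) ≤ l)
      linarith
    linarith
  have hη0 : 0 ≤ 1 - ρ := by linarith
  -- `k = 1`
  rcases Nat.lt_or_ge k 2 with hk2 | hk2
  · have hk11 : k = 1 := by omega
    have h1 : L = 0 := by rw [hL, hk11]; simp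
    rw [h1, zero_mul, hk11, Nat.choose_one_right] at hM
    have h2 : 0 < Real.log p := by
      have : 0 < (q : ℝ) ^ θ := by positivity
      linarith
    have h3 : 0 < Real.log p * (q * (r : ℝ)) := by positivity
    linarith
  have hk2' : (2 : ℝ) ≤ k := by exact_mod_cast hk2
  -- `k ≤ r` and the error term
  have hBh : (q : ℝ) ^ (1 / 2 : ℝ) ≤ r := by
    refine le_trans ?_ hrB.le
    rw [hB]
    apply Real.rpow_le_rpow_of_exponent_le hq1.le
    have : c / k ≤ 1 / 2 := by
      rw [div_le_div_iff₀ (by linarith) (by norm_num)]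
      linarith
    linarith
  obtain ⟨hkr, hkey2⟩ := lgb_key q r k l ρ _ hk2' hl hk16 (hk8.trans hqθ) hρr hρ0 hη0 hη hlh hBh
  have hqk : (0 : ℝ) < q - k := by linarith
  have hkr' : k ≤ r := by exact_mod_cast hkr
  have hprod := lgb_prod q r k (k * (1 - ρ) / (ρ * (q - k))) hkr' hrq hkq hr0
    (by
      rw [← hρ]
      apply le_of_eq
      field_simp) (by positivity) (by
      rw [← mul_div_assoc, div_le_div_iff₀ (by positivity) (by norm_num)]
      have h1 : (r : ℝ) / 2 ≤ ρ * (q - k) := by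
        have h2 : (q : ℝ) / 2 ≤ q - k := by linarith
        calc (r : ℝ) / 2 = ρ * (q / 2) := by rw [← hρr]; ring
          _ ≤ _ := mul_le_mul_of_nonneg_left h2 hρ0.le
      linarith)
  rw [← hρ] at hprod
  -- the contradiction
  have hX0 : (0 : ℝ) < q.choose k := by exact_mod_cast Nat.choose_pos hkq.le
  have hfin := lgb_fin q r k l ρ L (Real.log p) ((q : ℝ) ^ θ) (q.choose k) (r.choose k) (ρ ^ k) hq0
    (by linarith) (by linarith) hρr hη0 hη hL2 hlpL (by positivity) hX0 (by positivity)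
    (by positivity) hprod hM
  have h9 : (q : ℝ) ^ κ ≤ (q : ℝ) ^ θ * ρ ^ k := by
    have h10 : τ ^ k ≤ ρ ^ k := pow_le_pow_left₀ hτ0.le hτρ.le k
    calc (q : ℝ) ^ κ = (q : ℝ) ^ θ * (q : ℝ) ^ (-c) := by
          rw [← Real.rpow_add hq0]; congr 1; rw [hc]; ring
      _ = (q : ℝ) ^ θ * τ ^ k := by rw [hτk]
      _ ≤ _ := mul_le_mul_of_nonneg_left h10 (by positivity)
  linarith

end Pool.Agent.SPV.H68
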