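import Pool.Agent.SPV.StmtsL

/-!
# Squad SPV, row SEC (second moment)
-/

set_option autoImplicit false

namespace Pool.Agent.SPV.H68

open Finset Pool.Agent.SPV

/-! ### discrete convexity -/

theorem conv_left (φ D : ℕ → ℝ) (hD : ∀ n, φ (n + 1) = φ n + D n) (hm : Monotone D) (a ν : ℕ)
    (h1 : a ≤ ν) : φ ν - φ a ≤ (ν - a) * D ν := by
  induction ν, h1 using Nat.le_induction with
  | base => simp
  | succ n hn ih =>
    have h2 : D n ≤ D (n + 1) := hm (Nat.le_succ n)
    have h3 : (a : ℝ) ≤ n := by exact_mod_cast hn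
    rw [hD]
    push_cast
    nlinarith [mul_le_mul_of_nonneg_left h2 (by linarith : (0 : ℝ) ≤ (n : ℝ) + 1 - a)]

theorem conv_right (φ D : ℕ → ℝ) (hD : ∀ n, φ (n + 1) = φ n + D n) (hm : Monotone D) (ν b : ℕ)
    (h1 : ν ≤ b) : (b - ν) * D ν ≤ φ b - φ ν := by
  induction b, h1 using Nat.le_induction with
  | base => simp
  | succ n hn ih =>
    have h2 : D ν ≤ D n := hm hn
    rw [hD]
    push_cast
    linarith

theorem conv_le (φ D : ℕ → ℝ) (hD : ∀ n, φ (n + 1) = φ n + D n) (hm : Monotone D) (a ν b : ℕ)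
    (h1 : a ≤ ν) (h2 : ν ≤ b) :
    ((b : ℝ) - a) * φ ν ≤ (b - ν) * φ a + (ν - a) * φ b := by
  have h3 := conv_left φ D hD hm a ν h1
  have h4 := conv_right φ D hD hm ν b h2
  have h5 : (a : ℝ) ≤ ν := by exact_mod_cast h1
  have h6 : (ν : ℝ) ≤ b := by exact_mod_cast h2
  have h7 := mul_le_mul_of_nonneg_left h3 (sub_nonneg.mpr h6)
  have h8 := mul_le_mul_of_nonneg_left h4 (sub_nonneg.mpr h5)
  linarith

/-! ### falling factorials -/

theorem df_diff (k n : ℕ) : ((n + 1).descFactorial (k + 1) : ℝ) =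
    n.descFactorial (k + 1) + (k + 1) * n.descFactorial k := by
  rcases le_or_gt k n with h | h
  · rw [Nat.succ_descFactorial_succ, Nat.descFactorial_succ]
    push_cast [Nat.cast_sub h]
    ring
  · rw [Nat.succ_descFactorial_succ, Nat.descFactorial_succ,
      Nat.descFactorial_eq_zero_iff_lt.mpr h]
    simp

theorem df_mul (k a b r : ℕ) (h1 : a + b = 2 * r) (h2 : a ≤ r) :
    a.descFactorial k * b.descFactorial k ≤ r.descFactorial k ^ 2 := by
  rw [Nat.descFactorial_eq_prod_range, Nat.descFactorial_eq_prod_range,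
    Nat.descFactorial_eq_prod_range, ← prod_mul_distrib, ← prod_pow]
  apply prod_le_prod'
  intro i _
  rcases le_or_gt a i with h | h
  · rw [Nat.sub_eq_zero_of_le h, zero_mul]
    exact Nat.zero_le _
  · obtain ⟨u, rfl⟩ := Nat.exists_eq_add_of_le h.le
    obtain ⟨v, rfl⟩ := Nat.exists_eq_add_of_le h2
    have h3 : b = i + u + 2 * v := by omega
    subst h3
    have h4 : i + u - i = u := by omega
    have h5 : i + u + 2 * v - i = u + 2 * v := by omega
    have h6 : i + u + v - i = u + v := by omega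
    rw [h4, h5, h6]
    nlinarith [Nat.zero_le (v ^ 2)]

theorem df_claim (k q r ν : ℕ) (hk : 1 ≤ k) (hr : r < q) (h1 : ν ≤ r) (h2 : 2 * r ≤ ν + q) :
    ((q : ℝ) - r) * (ν.descFactorial k * q.descFactorial k) ≤
      (q - r) * (r.descFactorial k) ^ 2 +
        (ν - 2 * r + q) * (r.descFactorial k * q.descFactorial k) := by
  obtain ⟨k, rfl⟩ : ∃ k', k = k' + 1 := ⟨k - 1, by omega⟩
  set φ : ℕ → ℝ := fun n => (n.descFactorial (k + 1) : ℝ) with hφ
  set D : ℕ → ℝ := fun n => (k + 1) * (n.descFactorial k : ℝ) with hDdef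
  have hD : ∀ n, φ (n + 1) = φ n + D n := fun n => df_diff k n
  have hm : Monotone D := by
    intro m n hmn
    show (k + 1 : ℝ) * (m.descFactorial k : ℝ) ≤ (k + 1) * (n.descFactorial k : ℝ)
    have : (m.descFactorial k : ℝ) ≤ n.descFactorial k := by
      exact_mod_cast Nat.descFactorial_le k hmn
    gcongr
  have hq : (0 : ℝ) ≤ q.descFactorial (k + 1) := by positivity
  have hr0 : (0 : ℝ) ≤ r.descFactorial (k + 1) := by positivity
  have hqr : (0 : ℝ) < q - r := by
    have : (r : ℝ) < q := by exact_mod_cast hr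
    linarith
  have h1' : (ν : ℝ) ≤ r := by exact_mod_cast h1
  have h2' : 2 * (r : ℝ) ≤ ν + q := by exact_mod_cast h2
  rcases le_or_gt q (2 * r) with h | h
  · have h3 := conv_le φ D hD hm (2 * r - q) ν r (by omega) h1
    have h4 : (((2 * r - q : ℕ) : ℝ)) = 2 * r - q := by
      rw [Nat.cast_sub h]; push_cast; ring
    rw [h4] at h3
    have h5 : ((2 * r - q).descFactorial (k + 1) : ℝ) * q.descFactorial (k + 1) ≤
        (r.descFactorial (k + 1) : ℝ) ^ 2 := by
      exact_mod_cast df_mul (k + 1) (2 * r - q) q r (by omega) (by omega)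
    have h6 := mul_le_mul_of_nonneg_right h3 hq
    have h7 := mul_le_mul_of_nonneg_left h5 (sub_nonneg.mpr h1')
    have h8 : ((r : ℝ) - ν) * (r.descFactorial (k + 1) : ℝ) ^ 2 ≤
        (q - r) * (r.descFactorial (k + 1) : ℝ) ^ 2 := by
      apply mul_le_mul_of_nonneg_right _ (by positivity)
      linarith
    simp only [hφ] at h6
    linarith
  · have h' : 2 * (r : ℝ) < q := by exact_mod_cast h
    have h3 := conv_le φ D hD hm 0 ν r (Nat.zero_le _) h1
    have h4 : φ 0 = 0 := by simp [hφ]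
    rw [h4] at h3
    simp only [Nat.cast_zero, sub_zero, mul_zero, zero_add, hφ] at h3
    have h5 : ((q : ℝ) - r) * (ν.descFactorial (k + 1) : ℝ) ≤
        (ν - 2 * r + q) * r.descFactorial (k + 1) := by
      rcases Nat.eq_zero_or_pos r with h0 | h0
      · have h00 : ν = 0 := by omega
        subst h00
        subst h0
        simp
      · have h0' : (0 : ℝ) < r := by exact_mod_cast h0
        have h6 : ((q : ℝ) - r) * ν ≤ (ν - 2 * r + q) * r := by
          nlinarith [mul_nonneg (by linarith : (0 : ℝ) ≤ q - 2 * r) (sub_nonneg.mpr h1')]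
        have h7 : (r : ℝ) * (((q : ℝ) - r) * (ν.descFactorial (k + 1) : ℝ)) ≤
            r * ((ν - 2 * r + q) * r.descFactorial (k + 1)) := by
          calc (r : ℝ) * (((q : ℝ) - r) * (ν.descFactorial (k + 1) : ℝ))
              = (q - r) * (r * (ν.descFactorial (k + 1) : ℝ)) := by ring
            _ ≤ (q - r) * (ν * r.descFactorial (k + 1)) :=
                mul_le_mul_of_nonneg_left h3 hqr.le
            _ = ((q - r) * ν) * r.descFactorial (k + 1) := by ring
            _ ≤ ((ν - 2 * r + q) * r) * r.descFactorial (k + 1) :=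
                mul_le_mul_of_nonneg_right h6 hr0
            _ = r * ((ν - 2 * r + q) * r.descFactorial (k + 1)) := by ring
        exact le_of_mul_le_mul_left h7 h0'
    have h8 := mul_le_mul_of_nonneg_right h5 hq
    have h9 : (0 : ℝ) ≤ (q - r) * (r.descFactorial (k + 1) : ℝ) ^ 2 := by positivity
    linarith

/-! ### counting injective tuples -/

theorem cnt (k q : ℕ) [NeZero q] (S : Finset (ZMod q)) :
    (univ.filter fun t : Fin k → ZMod q => Function.Injective t ∧ ∀ i, t i ∈ S).card =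
      S.card.descFactorial k := by
  classical
  have h1 : Fintype.card (Fin k ↪ S) = S.card.descFactorial k := by
    rw [Fintype.card_embedding_eq, Fintype.card_coe, Fintype.card_fin]
  rw [← h1, ← Fintype.card_subtype]
  apply Fintype.card_congr
  refine ⟨fun t => ⟨fun i => ⟨t.1 i, t.2.2 i⟩, fun i j hij => t.2.1 (congrArg Subtype.val hij)⟩,
    fun e => ⟨fun i => (e i : ZMod q), fun i j hij => e.injective (Subtype.ext hij),
      fun i => (e i).2⟩, fun t => rfl, fun e => rfl⟩

/-- the translate `Z - s` -/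
def sh {q : ℕ} [NeZero q] (Z : Finset (ZMod q)) (s : ZMod q) : Finset (ZMod q) :=
  univ.filter fun x => x + s ∈ Z

theorem mem_sh {q : ℕ} [NeZero q] (Z : Finset (ZMod q)) (s x : ZMod q) :
    x ∈ sh Z s ↔ x + s ∈ Z := by simp [sh]

theorem card_sh {q : ℕ} [NeZero q] (Z : Finset (ZMod q)) (s : ZMod q) :
    (sh Z s).card = Z.card := by
  apply card_bij (fun x _ => x + s)
  · intro x hx
    exact (mem_sh Z s x).mp hx
  · intro x _ y _ hxy
    exact add_right_cancel hxy
  · intro y hy
    exact ⟨y - s, (mem_sh Z s _).mpr (by rwa [sub_add_cancel]), sub_add_cancel y s⟩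

theorem card_sh' {q : ℕ} [NeZero q] (Z : Finset (ZMod q)) (x : ZMod q) :
    ((univ.filter fun s => x + s ∈ Z).card : ℝ) = Z.card := by
  rw [← card_sh Z x, sh]
  congr 2
  ext s
  simp [add_comm]

theorem card_inter {q : ℕ} [NeZero q] (Z : Finset (ZMod q)) (s s' : ZMod q) :
    2 * Z.card ≤ (sh Z s ∩ sh Z s').card + q := by
  have h1 := card_union_add_card_inter (sh Z s) (sh Z s')
  rw [card_sh, card_sh] at h1
  have h2 : (sh Z s ∪ sh Z s').card ≤ q := by
    calc (sh Z s ∪ sh Z s').card ≤ Fintype.card (ZMod q) := card_le_univ _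
      _ = q := ZMod.card q
  omega

theorem card_inter' {q : ℕ} [NeZero q] (Z : Finset (ZMod q)) (s s' : ZMod q) :
    (sh Z s ∩ sh Z s').card ≤ Z.card := by
  rw [← card_sh Z s]
  exact card_le_card inter_subset_left

theorem sum_inter {q : ℕ} [NeZero q] (Z : Finset (ZMod q)) :
    ∑ s : ZMod q, ∑ s' : ZMod q, ((sh Z s ∩ sh Z s').card : ℝ) = q * (Z.card : ℝ) ^ 2 := by
  have h1 : ∀ s s' : ZMod q, ((sh Z s ∩ sh Z s').card : ℝ) =
      ∑ x : ZMod q, (if x + s ∈ Z then (1 : ℝ) else 0) * (if x + s' ∈ Z then (1 : ℝ) else 0) := by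
    intro s s'
    have h2 : sh Z s ∩ sh Z s' = univ.filter fun x => x + s ∈ Z ∧ x + s' ∈ Z := by
      ext x
      simp [mem_sh]
    rw [h2, card_filter]
    push_cast
    apply sum_congr rfl
    intro x _
    by_cases hx : x + s ∈ Z <;> by_cases hx' : x + s' ∈ Z <;> simp [hx, hx']
  simp only [h1]
  rw [sum_congr rfl fun s _ => sum_comm, sum_comm]
  have h3 : ∀ x : ZMod q, ∑ s : ZMod q, ∑ s' : ZMod q,
      (if x + s ∈ Z then (1 : ℝ) else 0) * (if x + s' ∈ Z then (1 : ℝ) else 0) =
      (Z.card : ℝ) ^ 2 := by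
    intro x
    rw [← sum_mul_sum]
    have h4 : ∑ s : ZMod q, (if x + s ∈ Z then (1 : ℝ) else 0) = Z.card := by
      rw [← card_sh' Z x, card_filter]
      push_cast
      rfl
    rw [h4, sq]
  rw [sum_congr rfl fun x _ => h3 x, sum_const, card_univ, ZMod.card, nsmul_eq_mul]

/-- the number of translates -/
noncomputable def NN {q k : ℕ} [NeZero q] (Z : Finset (ZMod q)) (t : Fin k → ZMod q) : ℝ :=
  ∑ s : ZMod q, if ∀ i, t i + s ∈ Z then (1 : ℝ) else 0

theorem mom1 (k q : ℕ) [NeZero q] (Z : Finset (ZMod q)) :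
    ∑ t ∈ univ.filter (fun t : Fin k → ZMod q => Function.Injective t), NN Z t =
      q * (Z.card.descFactorial k : ℝ) := by
  unfold NN
  rw [sum_comm]
  have h1 : ∀ s : ZMod q, ∑ t ∈ univ.filter (fun t : Fin k → ZMod q => Function.Injective t),
      (if ∀ i, t i + s ∈ Z then (1 : ℝ) else 0) = (Z.card.descFactorial k : ℝ) := by
    intro s
    rw [← card_sh Z s, ← cnt k q (sh Z s), ← sum_filter, filter_filter, sum_const, nsmul_eq_mul,
      mul_one]
    congr 3
    ext t
    simp [mem_sh]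
  rw [sum_congr rfl fun s _ => h1 s, sum_const, card_univ, ZMod.card, nsmul_eq_mul]

theorem mom2 (k q : ℕ) [NeZero q] (Z : Finset (ZMod q)) :
    ∑ t ∈ univ.filter (fun t : Fin k → ZMod q => Function.Injective t), NN Z t ^ 2 =
      ∑ s : ZMod q, ∑ s' : ZMod q, ((sh Z s ∩ sh Z s').card.descFactorial k : ℝ) := by
  have h0 : ∀ t : Fin k → ZMod q, NN Z t ^ 2 = ∑ s : ZMod q, ∑ s' : ZMod q,
      if (∀ i, t i + s ∈ Z) ∧ ∀ i, t i + s' ∈ Z then (1 : ℝ) else 0 := by
    intro t
    unfold NN
    rw [sq, sum_mul_sum]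
    apply sum_congr rfl
    intro s _
    apply sum_congr rfl
    intro s' _
    by_cases hx : ∀ i, t i + s ∈ Z <;> by_cases hx' : ∀ i, t i + s' ∈ Z <;> simp [hx, hx']
  rw [sum_congr rfl fun t _ => h0 t, sum_comm]
  apply sum_congr rfl
  intro s _
  rw [sum_comm]
  apply sum_congr rfl
  intro s' _
  rw [← cnt k q (sh Z s ∩ sh Z s'), ← sum_filter, filter_filter, sum_const, nsmul_eq_mul, mul_one]
  congr 3
  ext t
  simp [mem_sh, forall_and]

theorem sec : SecStmt := by
  intro q k _ Z hk hkq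
  have hq0 : 0 < q := Nat.pos_of_ne_zero (NeZero.ne q)
  have hq0' : (0 : ℝ) < q := by exact_mod_cast hq0
  have hrq : Z.card ≤ q := by
    calc Z.card ≤ Fintype.card (ZMod q) := card_le_univ _
      _ = q := ZMod.card q
  have hrq' : (Z.card : ℝ) ≤ q := by exact_mod_cast hrq
  set I := univ.filter (fun t : Fin k → ZMod q => Function.Injective t) with hI
  set I' := univ.filter fun t : Fin k → ZMod q => Function.Injective t ∧ ∃ s, ∀ i, t i + s ∈ Z
    with hI'
  have hsub : I' ⊆ I := by
    intro t ht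
    rw [hI', mem_filter] at ht
    rw [hI, mem_filter]
    exact ⟨ht.1, ht.2.1⟩
  set R : ℝ := (Z.card.descFactorial k : ℝ) with hR
  set Q : ℝ := (q.descFactorial k : ℝ) with hQ
  have hR0 : 0 ≤ R := by positivity
  have hQ0 : 0 < Q := by
    have : 0 < q.descFactorial k := Nat.descFactorial_pos.mpr hkq
    rw [hQ]
    exact_mod_cast this
  have hM0 : (0 : ℝ) ≤ (I'.card : ℝ) := by positivity
  rcases hrq.lt_or_eq with hlt | heq
  · have hqr : (0 : ℝ) < q - Z.card := by
      have : (Z.card : ℝ) < q := by exact_mod_cast hlt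
      linarith
    -- Cauchy - Schwarz
    have h1 : (∑ t ∈ I, NN Z t) = ∑ t ∈ I', NN Z t := by
      symm
      apply sum_subset hsub
      intro t ht ht'
      unfold NN
      apply sum_eq_zero
      intro s _
      rw [if_neg]
      intro hs
      apply ht'
      rw [hI', mem_filter]
      rw [hI, mem_filter] at ht
      exact ⟨mem_univ _, ht.2, s, hs⟩
    have h2 : (∑ t ∈ I', NN Z t) ^ 2 ≤ I'.card * ∑ t ∈ I', NN Z t ^ 2 := sq_sum_le_card_mul_sum_sq
    have h3 : ∑ t ∈ I', NN Z t ^ 2 ≤ ∑ t ∈ I, NN Z t ^ 2 :=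
      sum_le_sum_of_subset_of_nonneg hsub fun t _ _ => sq_nonneg _
    rw [← h1, mom1 k q Z] at h2
    rw [mom2 k q Z] at h3
    -- the claim, summed
    set T : ℝ := ∑ s : ZMod q, ∑ s' : ZMod q, ((sh Z s ∩ sh Z s').card.descFactorial k : ℝ) with hT
    have h4 : ((q : ℝ) - Z.card) * (T * Q) ≤
        (q : ℝ) ^ 2 * ((q - Z.card) * R ^ 2) + q * (q - Z.card) ^ 2 * (R * Q) := by
      have h5 : ∑ s : ZMod q, ∑ s' : ZMod q, ((q : ℝ) - Z.card) *
          ((sh Z s ∩ sh Z s').card.descFactorial k * Q) ≤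
          ∑ s : ZMod q, ∑ s' : ZMod q, ((q - Z.card) * R ^ 2 +
            ((sh Z s ∩ sh Z s').card - 2 * Z.card + q) * (R * Q)) := by
        apply sum_le_sum
        intro s _
        apply sum_le_sum
        intro s' _
        exact df_claim k q Z.card _ hk hlt (card_inter' Z s s') (card_inter Z s s')
      have h6 : ∑ s : ZMod q, ∑ s' : ZMod q, ((q : ℝ) - Z.card) *
          ((sh Z s ∩ sh Z s').card.descFactorial k * Q) = ((q : ℝ) - Z.card) * (T * Q) := by
        rw [hT, sum_mul, mul_sum]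
        apply sum_congr rfl
        intro s _
        rw [sum_mul, mul_sum]
      have h7 : ∑ s : ZMod q, ∑ s' : ZMod q, ((q - Z.card) * R ^ 2 +
            ((sh Z s ∩ sh Z s').card - 2 * Z.card + q) * (R * Q)) =
          (q : ℝ) ^ 2 * ((q - Z.card) * R ^ 2) + q * (q - Z.card) ^ 2 * (R * Q) := by
        have h8 : ∑ s : ZMod q, ∑ s' : ZMod q, ((q - Z.card) * R ^ 2 +
            ((sh Z s ∩ sh Z s').card - 2 * Z.card + q) * (R * Q)) =
            ∑ s : ZMod q, ∑ s' : ZMod q, (((q : ℝ) - Z.card) * R ^ 2 +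
            (q - 2 * Z.card) * (R * Q)) +
            (∑ s : ZMod q, ∑ s' : ZMod q, ((sh Z s ∩ sh Z s').card : ℝ)) * (R * Q) := by
          rw [sum_mul, ← sum_add_distrib]
          apply sum_congr rfl
          intro s _
          rw [sum_mul, ← sum_add_distrib]
          apply sum_congr rfl
          intro s' _
          ring
        rw [h8, sum_inter]
        simp only [sum_const, card_univ, ZMod.card, nsmul_eq_mul]
        ring
      rw [h6, h7] at h5
      exact h5
    have h5 : T * Q ≤ (q : ℝ) ^ 2 * R ^ 2 + q * (q - Z.card) * (R * Q) := by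
      have h6 : ((q : ℝ) - Z.card) * (T * Q) ≤ (q - Z.card) *
          ((q : ℝ) ^ 2 * R ^ 2 + q * (q - Z.card) * (R * Q)) := by
        linarith
      exact le_of_mul_le_mul_left h6 hqr
    have h6 : (q * R) ^ 2 * Q ≤ I'.card * ((q : ℝ) ^ 2 * R ^ 2 + q * (q - Z.card) * (R * Q)) := by
      calc (q * R) ^ 2 * Q ≤ (I'.card * T) * Q := by
            apply mul_le_mul_of_nonneg_right _ hQ0.le
            exact h2.trans (mul_le_mul_of_nonneg_left h3 hM0)
        _ = I'.card * (T * Q) := by ring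
        _ ≤ _ := mul_le_mul_of_nonneg_left h5 hM0
    rcases hR0.lt_or_eq with hRp | hRe
    · have h7 : (q * R) * (q * R * Q) ≤ (q * R) * (I'.card * (q * R + (q - Z.card) * Q)) := by
        linarith
      exact le_of_mul_le_mul_left h7 (by positivity)
    · rw [← hRe]
      simp only [mul_zero, zero_mul, zero_add]
      positivity
  · have h1 : Z = univ := by
      apply eq_univ_of_card
      rw [heq, ZMod.card]
    have h2 : I'.card = q.descFactorial k := by
      have h3 := cnt k q (univ : Finset (ZMod q))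
      rw [card_univ, ZMod.card] at h3
      rw [← h3, hI']
      congr 1
      ext t
      simp [h1]
    have h3 : R = Q := by rw [hR, hQ, heq]
    rw [h2, h3, heq]
    simp only [sub_self, zero_mul, add_zero]
    rw [← hQ]
    linarith

end Pool.Agent.SPV.H68
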