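import Pool.Agent.SPV.StmtsA

/-!
# Squad SPV, row NBD
-/

set_option autoImplicit false

namespace Pool.Agent.SPV.H68

open Finset Pool.Agent.SPV

open Classical in
/-- the sets `B` with the pattern `D` -/
noncomputable def TT (p q m : ℕ) [Fact p.Prime] (g : ZMod p) (D : Finset ℕ) : Finset (Finset ℕ) :=
  ((range q).powersetCard m).filter fun B => ∃ b : ℕ → ZMod p, (∀ a ∈ B, b a ≠ 0) ∧
    ∀ j < 2 * m, j ∉ D → es g B b j = 0

theorem choose_mono_add (n d h : ℕ) (hd : d ≤ h) : (n + d).choose d ≤ (n + h).choose h := by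
  have h1 : (n + d).choose d = (n + d).choose n := by
    rw [← Nat.choose_symm_add]
  have h2 : (n + h).choose h = (n + h).choose n := by
    rw [← Nat.choose_symm_add]
  rw [h1, h2]
  exact Nat.choose_le_choose n (by omega)

theorem choose_bound (q m h : ℕ) (hq : 2 ≤ q) (hh : h ≤ 2 * m) :
    ((m * q + h).choose h : ℝ) ≤ (q : ℝ) ^ h * Real.exp (2 * m) := by
  have hq0 : (0 : ℝ) < q := by
    have : 0 < q := by omega
    exact_mod_cast this
  have h1 : (1 / q : ℝ) ^ h * ((m * q + h).choose h : ℝ) ≤ (1 / q + 1 : ℝ) ^ (m * q + h) := by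
    rw [add_pow]
    have h2 : (1 / q : ℝ) ^ h * (1 : ℝ) ^ (m * q + h - h) * ((m * q + h).choose h : ℝ) ≤
        ∑ i ∈ range (m * q + h + 1), (1 / q : ℝ) ^ i * (1 : ℝ) ^ (m * q + h - i) *
          ((m * q + h).choose i : ℝ) :=
      single_le_sum (f := fun i => (1 / q : ℝ) ^ i * (1 : ℝ) ^ (m * q + h - i) *
          ((m * q + h).choose i : ℝ)) (fun i _ => by positivity)
        (mem_range.mpr (by omega))
    rw [one_pow, mul_one] at h2
    exact h2
  have h2 : (1 / q + 1 : ℝ) ^ (m * q + h) ≤ Real.exp (2 * m) := by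
    calc (1 / q + 1 : ℝ) ^ (m * q + h) ≤ (Real.exp (1 / q)) ^ (m * q + h) := by
          apply pow_le_pow_left₀ (by positivity)
          exact Real.add_one_le_exp _
      _ = Real.exp ((m * q + h : ℕ) * (1 / q)) := by rw [← Real.exp_nat_mul]
      _ ≤ Real.exp (2 * m) := by
          apply Real.exp_le_exp.mpr
          rw [mul_one_div, div_le_iff₀ hq0]
          have h3 : m * q + h ≤ 2 * m * q := by nlinarith
          exact_mod_cast h3
  have h3 : ((m * q + h).choose h : ℝ) = (q : ℝ) ^ h * ((1 / q : ℝ) ^ h *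
      ((m * q + h).choose h : ℝ)) := by
    rw [← mul_assoc, ← mul_pow, mul_one_div_cancel hq0.ne', one_pow, one_mul]
  rw [h3]
  exact mul_le_mul_of_nonneg_left (h1.trans h2) (by positivity)

theorem nbd (hcnb : CnbStmt) (hwin : WinStmt) (hnre : NreStmt) : NbdStmt := by
  classical
  intro p q hp hq hqp ε hε0 hε1 m
  haveI : Fact p.Prime := ⟨hp⟩
  haveI : NeZero q := ⟨hq.ne_zero⟩
  have hq2 : 2 ≤ q := hq.two_le
  have hq0 : (0 : ℝ) < q := by exact_mod_cast hq.pos
  have hq1 : (1 : ℝ) ≤ q := by exact_mod_cast hq.one_le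
  obtain ⟨z, hz, hnr⟩ := hnre p q hq hqp
  set η : ℝ := 1 - ε with hη
  have hη0 : 0 ≤ η := by rw [hη]; linarith
  set h : ℕ := ⌊2 * η * m⌋₊ with hh
  have hηm : 0 ≤ 2 * η * m := by positivity
  have hh1 : (h : ℝ) ≤ 2 * η * m := Nat.floor_le hηm
  have hh2 : h ≤ 2 * m := by
    have h1 : (h : ℝ) ≤ 2 * m := by
      refine hh1.trans ?_
      have : η ≤ 1 := by rw [hη]; linarith
      have h2 : (0 : ℝ) ≤ m := by positivity
      nlinarith
    exact_mod_cast h1
  set DD : Finset (Finset ℕ) := (range (2 * m)).powerset.filter fun D => D.card ≤ h with hDD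
  -- the union
  have hsub : {B : Finset ℕ | B ⊆ range q ∧ B.card = m ∧ Bad p q ε B} ⊆
      ((DD.biUnion fun D => TT p q m z D : Finset (Finset ℕ)) : Set (Finset ℕ)) := by
    rintro B ⟨hBq, hBm, β, hβ, hβq⟩
    obtain ⟨b', hb', hw⟩ := hwin (ZMod p) z q (2 * m) hq.pos hz.pow_eq_one B β hβ
    have h1 := card_filter_add_card_filter_not (s := range q) (fun t => es z B β t = 0)
    rw [hnr B β, card_range] at h1
    have h2 : (((range q).filter fun t => es z B β t ≠ 0).card : ℝ) ≤ η * q := by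
      have h3 : ((nr p q B β : ℝ) + ((range q).filter fun t => ¬ es z B β t = 0).card) = q := by
        exact_mod_cast h1
      have h4 : η * q = q - ε * q := by rw [hη]; ring
      rw [h4]
      have h5 : (((range q).filter fun t => es z B β t ≠ 0).card : ℝ) =
        ((range q).filter fun t => ¬ es z B β t = 0).card := rfl
      rw [h5]
      linarith
    set D := (range (2 * m)).filter fun j => es z B b' j ≠ 0 with hD
    have h3 : (D.card : ℝ) ≤ 2 * η * m := by
      have h4 : (q : ℝ) * D.card ≤ (2 * m : ℕ) *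
          ((range q).filter fun t => es z B β t ≠ 0).card := by exact_mod_cast hw
      have h5 : (q : ℝ) * D.card ≤ q * (2 * η * m) := by
        refine h4.trans ?_
        push_cast
        calc (2 * m : ℝ) * ((range q).filter fun t => es z B β t ≠ 0).card
            ≤ (2 * m : ℝ) * (η * q) := mul_le_mul_of_nonneg_left h2 (by positivity)
          _ = q * (2 * η * m) := by ring
      exact le_of_mul_le_mul_left h5 hq0
    have h4 : D.card ≤ h := Nat.le_floor h3
    rw [mem_coe, mem_biUnion]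
    refine ⟨D, ?_, ?_⟩
    · rw [hDD, mem_filter, mem_powerset]
      exact ⟨filter_subset _ _, h4⟩
    · unfold TT
      rw [mem_filter, mem_powersetCard]
      refine ⟨⟨hBq, hBm⟩, b', hb', fun j hj hjD => ?_⟩
      by_contra hne
      apply hjD
      rw [hD, mem_filter, mem_range]
      exact ⟨hj, hne⟩
  -- the count
  have hcard : (DD.biUnion fun D => TT p q m z D).card ≤ 2 ^ (2 * m) * (m * q + h).choose h := by
    have h1 : (DD.biUnion fun D => TT p q m z D).card ≤ DD.card * (m * q + h).choose h := by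
      apply card_biUnion_le_card_mul
      intro D hD
      rw [hDD, mem_filter] at hD
      refine le_trans ?_ (choose_mono_add (m * q) D.card h hD.2)
      apply hcnb (ZMod p) z q m hq.pos hz D
      intro B hB
      unfold TT at hB
      rw [mem_filter, mem_powersetCard] at hB
      exact ⟨hB.1.1, hB.1.2, hB.2⟩
    refine h1.trans (Nat.mul_le_mul_right _ ?_)
    calc DD.card ≤ (range (2 * m)).powerset.card := card_filter_le _ _
      _ = 2 ^ (2 * m) := by rw [card_powerset, card_range]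
  have h1 : ({B : Finset ℕ | B ⊆ range q ∧ B.card = m ∧ Bad p q ε B}.ncard : ℝ) ≤
      2 ^ (2 * m) * ((m * q + h).choose h : ℝ) := by
    have h2 := Set.ncard_le_ncard hsub (finite_toSet _)
    rw [Set.ncard_coe_finset] at h2
    exact_mod_cast h2.trans hcard
  refine h1.trans ?_
  have h2 := choose_bound q m h hq2 hh2
  have h3 : (q : ℝ) ^ h ≤ ((q : ℝ) ^ (2 * η)) ^ m := by
    rw [← Real.rpow_natCast, ← Real.rpow_natCast, ← Real.rpow_mul hq0.le]
    exact Real.rpow_le_rpow_of_exponent_le hq1 hh1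
  have h4 : (2 : ℝ) ^ (2 * m) * Real.exp (2 * m) ≤ 30 ^ m := by
    have h5 : Real.exp (2 * m) = (Real.exp 1 ^ 2) ^ m := by
      rw [← pow_mul, ← Real.exp_nat_mul]
      congr 1
      push_cast
      ring
    rw [h5, pow_mul, ← mul_pow]
    apply pow_le_pow_left₀ (by positivity)
    have h6 : Real.exp 1 < 2.7182818286 := Real.exp_one_lt_d9
    have h7 : (0 : ℝ) < Real.exp 1 := Real.exp_pos 1
    nlinarith
  calc (2 : ℝ) ^ (2 * m) * ((m * q + h).choose h : ℝ)
      ≤ 2 ^ (2 * m) * ((q : ℝ) ^ h * Real.exp (2 * m)) := by gcongr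
    _ = (2 ^ (2 * m) * Real.exp (2 * m)) * (q : ℝ) ^ h := by ring
    _ ≤ 30 ^ m * ((q : ℝ) ^ (2 * η)) ^ m := by gcongr
    _ = (30 * (q : ℝ) ^ (2 * η)) ^ m := by rw [mul_pow]

end Pool.Agent.SPV.H68
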