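import Pool.Agent.SPV.StmtsA

/-!
# Squad SPV, row NRE
-/

set_option autoImplicit false

namespace Pool.Agent.SPV.H68

open Finset Pool.Agent.SPV

theorem nre (hrts : RtsStmt) : NreStmt := by
  intro p q _ _ hq hqp
  obtain ⟨z, hz, hA⟩ := hrts p q hq hqp
  refine ⟨z, hz, fun A β => ?_⟩
  rw [← hA A β]
  have hval : ∀ t : ℕ, ∀ i : ℕ, z ^ ((t : ZMod q) * (i : ZMod q)).val = (z ^ i) ^ t := by
    intro t i
    rw [← Nat.cast_mul, ZMod.val_natCast, ← pow_eq_pow_mod _ hz.pow_eq_one, mul_comm, pow_mul]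
  apply card_bij (fun (t : ℕ) _ => (t : ZMod q))
  · intro t ht
    rw [mem_filter] at ht ⊢
    refine ⟨mem_univ _, ?_⟩
    rw [← ht.2]
    apply sum_congr rfl
    intro i _
    rw [hval]
  · intro s hs t ht hst
    have h1 := mem_range.mp (mem_filter.mp hs).1
    have h2 := mem_range.mp (mem_filter.mp ht).1
    have h3 := congrArg ZMod.val hst
    rwa [ZMod.val_natCast, ZMod.val_natCast, Nat.mod_eq_of_lt h1, Nat.mod_eq_of_lt h2] at h3
  · intro s hs
    have h1 : ((s.val : ℕ) : ZMod q) = s := ZMod.natCast_zmod_val s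
    refine ⟨s.val, ?_, h1⟩
    rw [mem_filter, mem_range]
    refine ⟨ZMod.val_lt s, ?_⟩
    rw [← (mem_filter.mp hs).2]
    apply sum_congr rfl
    intro i _
    rw [← hval, h1]

end Pool.Agent.SPV.H68
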